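import Mathlib
import Pool.Agent.Results.MP_718903_gt.SequentialDSeparable

/-!
# Sequential d-separable topological groups that are not D-separable

For every infinite cardinal `κ` with `κ ^ ω = κ` there is a Boolean topological group `G` of
cardinality `κ` which is `ω`-bounded (the closure of every countable subset is compact; in particular
it is countably compact), Tychonoff and Fréchet (hence sequential), which is d-separable, and which
has a dense subset `D` that contains no σ-discrete set dense in `G`; in particular `G` is not
D-separable. The group is the `Σ`-product of `κ` many copies of `ℤ/2`.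
-/

set_option autoImplicit false

open Set Topology Cardinal

namespace Pool.Agent.Results.MP_718903_gt.OmegaBoundedGroups

open Pool.Agent.H94R3.Sigma Pool.Agent.H94R3.Sequential

universe u v

/-- The `Σ`-product of the cube `(ℤ/2)^I`, as a subgroup of the cube (`Bool` with exclusive or). -/
def Sig (I : Type u) : AddSubgroup (I → Bool) where
  carrier := {x | {i | x i ≠ false}.Countable}
  zero_mem' := by
    have : {i : I | (0 : I → Bool) i ≠ false} = ∅ := by
      ext i
      simp only [Set.mem_ofPred_eq, Set.mem_empty_iff_false, iff_false, not_not]
      rfl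
    show {i : I | (0 : I → Bool) i ≠ false}.Countable
    rw [this]
    exact countable_empty
  add_mem' := by
    intro x y hx hy
    refine (hx.union hy).mono ?_
    intro i hi
    by_contra h
    rw [mem_union, not_or] at h
    have h1 : x i = false := not_not.1 h.1
    have h2 : y i = false := not_not.1 h.2
    apply hi
    show x i + y i = false
    rw [h1, h2]
    rfl
  neg_mem' := by
    intro x hx
    exact hx

variable {I : Type u}

theorem isCompact_closure {C : Set (Sig I)} (hC : C.Countable) : IsCompact (closure C) := by
  let J : Set I := ⋃ x ∈ C, {i | (x : I → Bool) i ≠ false}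
  have hJ : J.Countable := hC.biUnion fun x _ => x.2
  let K0 : Set (I → Bool) := {y | ∀ i, i ∉ J → y i = false}
  have hK0 : IsClosed K0 := by
    have : K0 = ⋂ (i : I) (_ : i ∉ J), {y : I → Bool | y i = false} := by
      ext y
      simp [K0]
    rw [this]
    refine isClosed_iInter fun i => isClosed_iInter fun _ => ?_
    exact isClosed_singleton.preimage (continuous_apply i)
  let K : Set (Sig I) := Subtype.val ⁻¹' K0
  have hKcl : IsClosed K := hK0.preimage continuous_subtype_val
  have hK : IsCompact K := by
    rw [Subtype.isCompact_iff]
    have : Subtype.val '' K = K0 := by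
      ext y
      constructor
      · rintro ⟨x, hx, rfl⟩
        exact hx
      · intro hy
        refine ⟨⟨y, ?_⟩, hy, rfl⟩
        refine hJ.mono ?_
        intro i hi
        by_contra h
        exact hi (hy i h)
    rw [this]
    exact hK0.isCompact
  refine hK.of_isClosed_subset isClosed_closure (closure_minimal ?_ hKcl)
  intro x hx i hi
  by_contra h
  exact hi (mem_biUnion hx h)

theorem mk_sig [Infinite I] (hI : #I ^ ℵ₀ = #I) : #(Sig I) = #I := by
  classical
  apply le_antisymm
  · have h1 : #(Sig I) ≤ #{t : Set I // #t ≤ ℵ₀} := by
      refine Cardinal.mk_le_of_injective (f := fun x : Sig I =>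
        (⟨{i | (x : I → Bool) i ≠ false}, ?_⟩ : {t : Set I // #t ≤ ℵ₀})) ?_
      · exact Cardinal.mk_le_aleph0_iff.2 x.2.to_subtype
      · intro x y hxy
        have h2 : {i | (x : I → Bool) i ≠ false} = {i | (y : I → Bool) i ≠ false} :=
          congrArg Subtype.val hxy
        apply Subtype.ext
        funext i
        have h3 := Set.ext_iff.1 h2 i
        simp only [Set.mem_ofPred_eq] at h3
        rcases hx : (x : I → Bool) i with _ | _ <;> rcases hy : (y : I → Bool) i with _ | _
        · rfl
        · exact absurd hx (h3.2 (by rw [hy]; simp))
        · exact absurd hy (h3.1 (by rw [hx]; simp))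
        · rfl
    refine h1.trans ((Cardinal.mk_bounded_set_le I ℵ₀).trans ?_)
    rw [max_eq_left (Cardinal.aleph0_le_mk I), hI]
  · refine Cardinal.mk_le_of_injective (f := fun i : I =>
      (⟨fun j => decide (j = i), ?_⟩ : Sig I)) ?_
    · show {j | decide (j = i) ≠ false}.Countable
      refine (countable_singleton i).mono ?_
      intro j hj
      simpa using hj
    · intro i j hij
      have h1 := congrFun (congrArg Subtype.val hij) i
      simpa using h1

/-- (1) For every infinite type `I` with `#I ^ ω = #I` there is a Boolean topological group of
cardinality `#I`, Tychonoff, Fréchet (so sequential) and `ω`-bounded (closures of countable sets are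
compact), which is d-separable and has a dense subset `D` such that no countable union of discrete
subsets of `D` is dense; in particular it is not D-separable.

(2) There is a countable `T₁` Fréchet (so sequential) space which is d-separable and not D-separable.

(3) Every separable sequential Hausdorff space is D-separable. -/
theorem result :
    (∀ (I : Type u) [Infinite I], #I ^ ℵ₀ = #I →
      ∃ (G : Type u) (_ : AddCommGroup G) (_ : TopologicalSpace G),
        IsTopologicalAddGroup G ∧ T35Space G ∧ (∀ x : G, x + x = 0) ∧ #G = #I ∧
        FrechetUrysohnSpace G ∧ SequentialSpace G ∧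
        (∀ C : Set G, C.Countable → IsCompact (closure C)) ∧
        WeaklyDSeparable G ∧ ¬ SelectivelyDSeparable G ∧
        ∃ D : Set G, Dense D ∧ ∀ F : ℕ → Set G,
          (∀ n, F n ⊆ D ∧ IsDiscrete (F n)) → ¬ Dense (⋃ n, F n)) ∧
    (∃ (X : Type) (_ : TopologicalSpace X), Countable X ∧ T1Space X ∧ SequentialSpace X ∧
      FrechetUrysohnSpace X ∧ WeaklyDSeparable X ∧ ¬ SelectivelyDSeparable X) ∧
    (∀ (X : Type v) [TopologicalSpace X] [T2Space X] [SequentialSpace X]
      [TopologicalSpace.SeparableSpace X], SelectivelyDSeparable X) := by
  obtain ⟨h1, -, h3⟩ := Pool.Agent.Results.MP_718903_gt.SequentialDSeparable.result.{v}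
  refine ⟨fun I _ hI => ?_, h1, h3⟩
  have hF : FrechetUrysohnSpace (Sig I) := (frechet : FrechetUrysohnSpace (SigmaCantor I))
  refine ⟨Sig I, inferInstance, inferInstance, inferInstance, inferInstance, ?_, mk_sig hI, hF,
    inferInstance, fun C hC => isCompact_closure hC, ?_, ?_, ?_⟩
  · intro x
    apply Subtype.ext
    funext i
    show (x : I → Bool) i + (x : I → Bool) i = 0
    rcases (x : I → Bool) i with _ | _ <;> rfl
  · exact (weaklyDSeparable : WeaklyDSeparable (SigmaCantor I))
  · exact (not_selectivelyDSeparable hI : ¬ SelectivelyDSeparable (SigmaCantor I))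
  · exact (exists_dense hI : ∃ D : Set (SigmaCantor I), Dense D ∧ ∀ F : ℕ → Set (SigmaCantor I),
      (∀ n, F n ⊆ D ∧ IsDiscrete (F n)) → ¬ Dense (⋃ n, F n))

end Pool.Agent.Results.MP_718903_gt.OmegaBoundedGroups
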